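import Pool.Agent.W528.HG.Stm

set_option autoImplicit false

/-! The standard additive character. -/

namespace Pool.Agent.W308.HG.AV

open Pool.Agent.W528.HG Pool.Agent.W528.HB

theorem main : Pool.Agent.W528.HG.AV := by
  intro c _ L _ _ _ ν hν
  letI := ZMod.algebra L c
  haveI : Module.Finite (ZMod c) L := Module.Finite.of_finite
  refine ⟨(AddChar.zmodChar c hν.pow_eq_one).compAddMonoidHom
      (Algebra.trace (ZMod c) L).toAddMonoidHom, ⟨ν, hν, fun y => ?_⟩, fun y => ?_⟩
  · rw [AddChar.compAddMonoidHom_apply, AddChar.zmodChar_apply]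
    rfl
  · rw [AddChar.compAddMonoidHom_apply, AddChar.zmodChar_apply]
    have hc : 1 < c := (Fact.out : c.Prime).one_lt
    have hcard : Nat.log c (Fintype.card L) = Module.finrank (ZMod c) L := by
      rw [Module.card_eq_pow_finrank (K := ZMod c) (V := L), ZMod.card, Nat.log_pow hc]
    have htr : absTr L c y = algebraMap (ZMod c) L (Algebra.trace (ZMod c) L y) := by
      rw [FiniteField.algebraMap_trace_eq_sum_pow]
      unfold absTr
      rw [hcard]
      simp
    set t : ZMod c := Algebra.trace (ZMod c) L y with ht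
    have htr2 : absTr L c y = ((t.val : ℕ) : L) := by
      rw [htr]
      conv_lhs => rw [← ZMod.natCast_zmod_val t]
      rw [map_natCast]
    unfold av
    have hlt : t.val < c := ZMod.val_lt t
    rw [Finset.sum_eq_single_of_mem t.val (Finset.mem_range.2 hlt)]
    · rw [if_pos htr2]
      rfl
    · intro i hi hne
      rw [if_neg]
      intro h
      rw [htr2] at h
      exact hne ((CharP.natCast_injOn_Iio L c) (Set.mem_Iio.2 (Finset.mem_range.1 hi))
        (Set.mem_Iio.2 hlt) h.symm)

end Pool.Agent.W308.HG.AV
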